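import Pool.Agent.W314.BA.Stm

set_option autoImplicit false

open MeasureTheory Set Filter Topology Real

namespace Pool.Agent.W696.BA.TH

open Pool.Agent.W314.BA

theorem norm_ee (u : ℝ) : ‖ee u - 1‖ ^ 2 = 4 * Real.sin (π * u) ^ 2 := by
  have h : ee u = Complex.exp (Complex.I * ((2 * π * u : ℝ) : ℂ)) := by
    unfold ee
    congr 1
    push_cast
    ring
  rw [h, Complex.norm_exp_I_mul_ofReal_sub_one, Real.norm_eq_abs, sq_abs]
  have : 2 * π * u / 2 = π * u := by ring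
  rw [this]
  ring

theorem lower {u : ℝ} (h1 : -(1 / 2) ≤ u) (h2 : u ≤ 1 / 2) : 16 * u ^ 2 ≤ ‖ee u - 1‖ ^ 2 := by
  rw [norm_ee]
  have hpi := Real.pi_pos
  have h3 : 2 * |u| ≤ Real.sin (π * |u|) := by
    have h4 := Real.mul_le_sin (x := π * |u|) (by positivity) (by
      have : |u| ≤ 1 / 2 := abs_le.2 ⟨by linarith, h2⟩
      nlinarith)
    calc 2 * |u| = 2 / π * (π * |u|) := by field_simp
      _ ≤ _ := h4
  have h5 : Real.sin (π * u) ^ 2 = Real.sin (π * |u|) ^ 2 := by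
    rcases abs_cases u with ⟨h, _⟩ | ⟨h, _⟩
    · rw [h]
    · rw [h, mul_neg, Real.sin_neg, neg_sq]
  rw [h5]
  have h6 : (2 * |u|) ^ 2 ≤ Real.sin (π * |u|) ^ 2 := pow_le_pow_left₀ (by positivity) h3 2
  have h7 : (2 * |u|) ^ 2 = 4 * u ^ 2 := by rw [mul_pow, sq_abs]; norm_num
  rw [h7] at h6
  linarith

theorem main : ThetaStmt := by
  intro κ d hκ hd
  refine ⟨√(π / (16 * κ)), fun x hx => ?_⟩
  have hx0 : 0 < x := by linarith
  have hL : 0 < Real.log x := Real.log_pos (by linarith)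
  set k : ℝ → ℝ := fun u => x ^ (-(κ * ‖ee u - 1‖ ^ 2)) with hk
  have hee : Continuous ee := by unfold ee; fun_prop
  have hkc : Continuous k := by
    rw [hk]
    exact Continuous.rpow continuous_const (by fun_prop) (fun u => Or.inl hx0.ne')
  have hper : Function.Periodic k 1 := by
    intro u
    have : ‖ee (u + 1) - 1‖ ^ 2 = ‖ee u - 1‖ ^ 2 := by
      rw [norm_ee, norm_ee, mul_add, mul_one, Real.sin_add_pi, neg_sq]
    simp only [hk]
    rw [this]
  have hd' : (d : ℝ) ≠ 0 := by exact_mod_cast hd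
  have e1 : ∫ θ in (0 : ℝ)..1, x ^ (-(κ * ‖ee (d * θ) - 1‖ ^ 2)) = ∫ u in (0 : ℝ)..1, k u := by
    have h1 : ∫ θ in (0 : ℝ)..1, k (d * θ) = (d : ℝ)⁻¹ • ∫ u in (d * 0 : ℝ)..(d * 1), k u :=
      intervalIntegral.integral_comp_mul_left k hd'
    have h2 := hper.intervalIntegral_add_zsmul_eq d 0 (fun t₁ t₂ => hkc.intervalIntegrable t₁ t₂)
    rw [zero_add, zero_add] at h2
    have h3 : (d • (1 : ℝ)) = d * 1 := by simp
    rw [h3] at h2
    rw [mul_zero, h2] at h1
    have h4 : (d : ℝ)⁻¹ • (d • ∫ u in (0 : ℝ)..1, k u) = ∫ u in (0 : ℝ)..1, k u := by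
      rw [zsmul_eq_mul, smul_eq_mul, ← mul_assoc, inv_mul_cancel₀ hd', one_mul]
    rw [h4] at h1
    exact h1
  have e2 : ∫ u in (0 : ℝ)..1, k u = ∫ u in (-(1 / 2) : ℝ)..(1 / 2), k u := by
    have := hper.intervalIntegral_add_eq 0 (-(1 / 2))
    rw [zero_add] at this
    rw [this]
    norm_num
  rw [e1, e2]
  have hle : ∀ u ∈ Icc (-(1 / 2) : ℝ) (1 / 2), k u ≤ Real.exp (-(16 * κ * Real.log x) * u ^ 2) := by
    intro u hu
    simp only [hk]
    rw [Real.rpow_def_of_pos hx0]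
    apply Real.exp_le_exp.2
    have h1 := lower hu.1 hu.2
    have h2 : κ * (16 * u ^ 2) ≤ κ * ‖ee u - 1‖ ^ 2 := mul_le_mul_of_nonneg_left h1 hκ.le
    have h3 := mul_le_mul_of_nonneg_left h2 hL.le
    nlinarith
  have hb : 0 < 16 * κ * Real.log x := by positivity
  have hint : Integrable (fun u : ℝ => Real.exp (-(16 * κ * Real.log x) * u ^ 2)) :=
    integrable_exp_neg_mul_sq hb
  calc ∫ u in (-(1 / 2) : ℝ)..(1 / 2), k u
      ≤ ∫ u in (-(1 / 2) : ℝ)..(1 / 2), Real.exp (-(16 * κ * Real.log x) * u ^ 2) := by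
        apply intervalIntegral.integral_mono_on (by norm_num) (hkc.intervalIntegrable _ _)
          hint.intervalIntegrable
        exact hle
    _ ≤ ∫ u : ℝ, Real.exp (-(16 * κ * Real.log x) * u ^ 2) := by
        rw [intervalIntegral.integral_of_le (by norm_num)]
        exact setIntegral_le_integral hint (Eventually.of_forall fun u => (Real.exp_pos _).le)
    _ = √(π / (16 * κ * Real.log x)) := integral_gaussian _
    _ = √(π / (16 * κ)) / √(Real.log x) := by
        rw [← Real.sqrt_div (by positivity)]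
        congr 1
        field_simp

end Pool.Agent.W696.BA.TH
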